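import Mathlib
import Pool.Agent.L5helper98.ID.Defs

set_option autoImplicit false

open MeasureTheory ProbabilityTheory Filter Topology Set
open scoped ENNReal

namespace Pool.Agent.L5helper61.ID

open Pool.Agent.L5helper98.ID

theorem lp_nonneg (x : ℝ) : 0 ≤ lp x := le_max_right _ _

theorem measurable_lp : Measurable lp := by
  unfold L5helper98.ID.lp
  exact (Real.measurable_log.comp (measurable_const.div continuous_abs.measurable)).max
    measurable_const

theorem pointwise {θ : ℝ → ℝ} (h : AdmT θ) {ε s : ℝ} (hε : 0 < ε) (hs : 0 < s) (x : ℝ) :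
    ENNReal.ofReal (Real.exp (s * reg θ lp ε x) - 1) ≤
      ∫⁻ y, ENNReal.ofReal (θ (y / ε) / ε) *
        ENNReal.ofReal (Real.exp (s * lp (x - y)) - 1) := by
  have hwint : Integrable (fun y => θ (y / ε) / ε) := (h.integrable.comp_div hε.ne').div_const ε
  have hw1 : ∫ y, θ (y / ε) / ε = 1 := by
    rw [integral_div, Measure.integral_comp_div, h.int_one, abs_of_pos hε]
    simp [hε.ne']
  have hw0 : ∀ y, 0 ≤ θ (y / ε) / ε := fun y => div_nonneg (h.nonneg _) hε.le
  by_cases hI : Integrable (fun y => θ (y / ε) / ε * lp (x - y))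
  · have ht' : ∫ y, θ (y / ε) / ε * lp (x - y) = reg θ lp ε x := rfl
    generalize reg θ lp ε x = t at ht'
    have hA : ∀ y, θ (y / ε) / ε * (Real.exp (s * t) * (1 + s * (lp (x - y) - t)) - 1) ≤
        θ (y / ε) / ε * (Real.exp (s * lp (x - y)) - 1) := by
      intro y
      apply mul_le_mul_of_nonneg_left _ (hw0 y)
      have h1 := Real.add_one_le_exp (s * (lp (x - y) - t))
      have h2 : Real.exp (s * lp (x - y)) = Real.exp (s * t) * Real.exp (s * (lp (x - y) - t)) := by
        rw [← Real.exp_add]
        ring_nf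
      rw [h2]
      have h3 := mul_le_mul_of_nonneg_left h1 (Real.exp_pos (s * t)).le
      linarith
    have hAint : Integrable (fun y => θ (y / ε) / ε *
        (Real.exp (s * t) * (1 + s * (lp (x - y) - t)) - 1)) := by
      have := (hwint.mul_const (Real.exp (s * t) * (1 - s * t) - 1)).add
        (hI.mul_const (Real.exp (s * t) * s))
      refine this.congr (Eventually.of_forall fun y => ?_)
      simp only [Pi.add_apply]
      ring
    have hAval : ∫ y, θ (y / ε) / ε * (Real.exp (s * t) * (1 + s * (lp (x - y) - t)) - 1) =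
        Real.exp (s * t) - 1 := by
      calc ∫ y, θ (y / ε) / ε * (Real.exp (s * t) * (1 + s * (lp (x - y) - t)) - 1)
          = ∫ y, (θ (y / ε) / ε * (Real.exp (s * t) * (1 - s * t) - 1) +
              θ (y / ε) / ε * lp (x - y) * (Real.exp (s * t) * s)) := by
            congr 1
            ext y
            ring
        _ = Real.exp (s * t) - 1 := by
            rw [integral_add (hwint.mul_const _) (hI.mul_const _), integral_mul_const,
              integral_mul_const, hw1, ht']
            ring
    calc ENNReal.ofReal (Real.exp (s * t) - 1)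
        = ENNReal.ofReal (∫ y, θ (y / ε) / ε *
            (Real.exp (s * t) * (1 + s * (lp (x - y) - t)) - 1)) := by rw [hAval]
      _ ≤ ENNReal.ofReal (∫ y, max (θ (y / ε) / ε *
            (Real.exp (s * t) * (1 + s * (lp (x - y) - t)) - 1)) 0) :=
          ENNReal.ofReal_le_ofReal (integral_mono hAint hAint.pos_part
            (fun y => le_max_left _ _))
      _ = ∫⁻ y, ENNReal.ofReal (max (θ (y / ε) / ε *
            (Real.exp (s * t) * (1 + s * (lp (x - y) - t)) - 1)) 0) :=
          ofReal_integral_eq_lintegral_ofReal hAint.pos_part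
            (Eventually.of_forall fun y => le_max_right _ _)
      _ ≤ _ := by
          apply lintegral_mono
          intro y
          simp only
          rw [← ENNReal.ofReal_mul (hw0 y)]
          apply ENNReal.ofReal_le_ofReal
          apply max_le (hA y) (mul_nonneg (hw0 y) _)
          have := Real.one_le_exp (mul_nonneg hs.le (lp_nonneg (x - y)))
          linarith
  · have : reg θ lp ε x = 0 := integral_undef hI
    rw [this]
    simp

theorem half {s : ℝ} (hs1 : s < 1) :
    ∫⁻ x in Ioi (0 : ℝ), ENNReal.ofReal (Real.exp (s * lp x) - 1) ≤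
      ENNReal.ofReal (s / (1 - s)) := by
  have hU : Ioi (0 : ℝ) = Ioc 0 1 ∪ Ioi 1 := (Ioc_union_Ioi_eq_Ioi zero_le_one).symm
  rw [hU]
  refine (lintegral_union_le _ _ _).trans ?_
  have h1 : ∫⁻ x in Ioi (1 : ℝ), ENNReal.ofReal (Real.exp (s * lp x) - 1) = 0 := by
    rw [setLIntegral_congr_fun (g := fun _ => 0) measurableSet_Ioi]
    · simp
    · intro x hx
      have hx' : (1 : ℝ) < x := hx
      have : lp x = 0 := by
        unfold L5helper98.ID.lp
        apply max_eq_right
        apply Real.log_nonpos (by positivity)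
        rw [abs_of_pos (by linarith)]
        rw [div_le_one (by linarith)]
        exact hx'.le
      simp [this]
  have hint : IntegrableOn (fun x : ℝ => x ^ (-s) - 1) (Ioc 0 1) := by
    have h := (intervalIntegral.intervalIntegrable_rpow' (a := 0) (b := 1)
      (show (-1 : ℝ) < -s by linarith)).sub
      (intervalIntegrable_const (c := (1 : ℝ)))
    exact (intervalIntegrable_iff_integrableOn_Ioc_of_le zero_le_one).1 h
  have h2 : ∫⁻ x in Ioc (0 : ℝ) 1, ENNReal.ofReal (Real.exp (s * lp x) - 1) =
      ENNReal.ofReal (∫ x in Ioc (0 : ℝ) 1, (x ^ (-s) - 1)) ∨ s < 0 := by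
    by_cases hs : s < 0
    · exact Or.inr hs
    left
    push Not at hs
    rw [ofReal_integral_eq_lintegral_ofReal hint]
    · apply setLIntegral_congr_fun measurableSet_Ioc
      intro x hx
      simp only
      congr 2
      have hx0 : 0 < x := hx.1
      have hl : lp x = -Real.log x := by
        unfold L5helper98.ID.lp
        rw [abs_of_pos hx0, one_div, Real.log_inv, max_eq_left]
        have := Real.log_nonpos hx0.le hx.2
        linarith
      rw [hl, Real.rpow_def_of_pos hx0]
      ring_nf
    · refine (ae_restrict_iff' measurableSet_Ioc).2 (Eventually.of_forall fun x hx => ?_)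
      simp only [Pi.zero_apply]
      have := Real.one_le_rpow_of_pos_of_le_one_of_nonpos hx.1 hx.2 (show -s ≤ 0 by linarith)
      linarith
  rw [h1, add_zero]
  rcases h2 with h2 | h2
  · rw [h2]
    apply ENNReal.ofReal_le_ofReal
    rw [← intervalIntegral.integral_of_le zero_le_one, intervalIntegral.integral_sub
      (intervalIntegral.intervalIntegrable_rpow' (show (-1 : ℝ) < -s by linarith))
      intervalIntegrable_const, integral_rpow (Or.inl (by linarith))]
    have h3 : (1 : ℝ) - s ≠ 0 := by linarith
    have h4 : -s + 1 ≠ 0 := by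
      intro h
      apply h3
      linarith
    rw [Real.one_rpow, Real.zero_rpow h4]
    simp only [intervalIntegral.integral_const, smul_eq_mul]
    apply le_of_eq
    rw [show -s + 1 = 1 - s by ring]
    field_simp
    ring
  · have : ∫⁻ x in Ioc (0 : ℝ) 1, ENNReal.ofReal (Real.exp (s * lp x) - 1) = 0 := by
      rw [setLIntegral_congr_fun (g := fun _ => 0) measurableSet_Ioc]
      · simp
      · intro x _
        simp only
        apply ENNReal.ofReal_of_nonpos
        have := Real.exp_le_one_iff.2 (mul_nonpos_of_nonpos_of_nonneg h2.le (lp_nonneg x))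
        linarith
    rw [this]
    exact bot_le

theorem J_le {s : ℝ} (hs1 : s < 1) (hs : 0 < s) :
    ∫⁻ x, ENNReal.ofReal (Real.exp (s * lp x) - 1) ≤ ENNReal.ofReal (2 * s / (1 - s)) := by
  have heven : ∀ x, lp (-x) = lp x := fun x => by unfold L5helper98.ID.lp; rw [abs_neg]
  have hU : (univ : Set ℝ) = Iio 0 ∪ Ici 0 := by
    rw [Iio_union_Ici]
  rw [← setLIntegral_univ, hU]
  refine (lintegral_union_le _ _ _).trans ?_
  have h1 : ∫⁻ x in Ici (0 : ℝ), ENNReal.ofReal (Real.exp (s * lp x) - 1) ≤
      ENNReal.ofReal (s / (1 - s)) := by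
    rw [setLIntegral_congr (Ioi_ae_eq_Ici (a := (0 : ℝ)) (μ := volume)).symm]
    exact half hs1
  have h2 : ∫⁻ x in Iio (0 : ℝ), ENNReal.ofReal (Real.exp (s * lp x) - 1) ≤
      ENNReal.ofReal (s / (1 - s)) := by
    have hmp : MeasurePreserving (fun x : ℝ => -x) volume volume :=
      Measure.measurePreserving_neg volume
    have hme : MeasurableEmbedding (fun x : ℝ => -x) := (MeasurableEquiv.neg ℝ).measurableEmbedding
    have := hmp.setLIntegral_comp_preimage_emb hme
      (fun x => ENNReal.ofReal (Real.exp (s * lp x) - 1)) (Ioi 0)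
    have hpre : (fun x : ℝ => -x) ⁻¹' (Ioi 0) = Iio 0 := by
      ext x
      simp
    rw [hpre] at this
    simp only [heven] at this
    rw [this]
    exact half hs1
  refine (add_le_add h2 h1).trans ?_
  have h3 : 0 ≤ s / (1 - s) := div_nonneg hs.le (by linarith)
  rw [← ENNReal.ofReal_add h3 h3]
  apply ENNReal.ofReal_le_ofReal
  apply le_of_eq
  ring

theorem JEN_holds : St_JEN := by
  intro θ h ε s hε hs hs1
  have hwint : Integrable (fun y => θ (y / ε) / ε) := (h.integrable.comp_div hε.ne').div_const ε
  have hw1 : ∫ y, θ (y / ε) / ε = 1 := by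
    rw [integral_div, Measure.integral_comp_div, h.int_one, abs_of_pos hε]
    simp [hε.ne']
  have hw0 : ∀ y, 0 ≤ θ (y / ε) / ε := fun y => div_nonneg (h.nonneg _) hε.le
  have hwm : Measurable (fun y => θ (y / ε) / ε) :=
    ((h.cont.comp (continuous_id.div_const ε)).div_const ε).measurable
  have hF : Measurable (fun x => ENNReal.ofReal (Real.exp (s * lp x) - 1)) :=
    ENNReal.measurable_ofReal.comp ((Real.measurable_exp.comp
      (measurable_lp.const_mul s)).sub_const 1)
  calc ∫⁻ x, ENNReal.ofReal (Real.exp (s * reg θ lp ε x) - 1)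
      ≤ ∫⁻ x, ∫⁻ y, ENNReal.ofReal (θ (y / ε) / ε) *
          ENNReal.ofReal (Real.exp (s * lp (x - y)) - 1) :=
        lintegral_mono fun x => pointwise h hε hs x
    _ = ∫⁻ y, ∫⁻ x, ENNReal.ofReal (θ (y / ε) / ε) *
          ENNReal.ofReal (Real.exp (s * lp (x - y)) - 1) := by
        rw [lintegral_lintegral_swap]
        apply Measurable.aemeasurable
        exact (ENNReal.measurable_ofReal.comp (hwm.comp measurable_snd)).mul
          (hF.comp (measurable_fst.sub measurable_snd))
    _ = ∫⁻ y, ENNReal.ofReal (θ (y / ε) / ε) *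
          ∫⁻ x, ENNReal.ofReal (Real.exp (s * lp x) - 1) := by
        congr 1
        ext y
        have hFy : Measurable (fun x => ENNReal.ofReal (Real.exp (s * lp (x - y)) - 1)) :=
          hF.comp (measurable_id.sub_const y)
        rw [lintegral_const_mul _ hFy]
        congr 1
        exact lintegral_sub_right_eq_self (fun x => ENNReal.ofReal (Real.exp (s * lp x) - 1)) y
    _ = (∫⁻ y, ENNReal.ofReal (θ (y / ε) / ε)) *
          ∫⁻ x, ENNReal.ofReal (Real.exp (s * lp x) - 1) :=
        lintegral_mul_const _ (ENNReal.measurable_ofReal.comp hwm)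
    _ = ∫⁻ x, ENNReal.ofReal (Real.exp (s * lp x) - 1) := by
        rw [← ofReal_integral_eq_lintegral_ofReal hwint (Eventually.of_forall hw0), hw1,
          ENNReal.ofReal_one, one_mul]
    _ ≤ ENNReal.ofReal (2 * s / (1 - s)) := J_le hs1 hs

end Pool.Agent.L5helper61.ID
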